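import Pool.Agent.H50.G.S.Helper112.Lp.Defs
import Pool.Agent.H50.G.S.Helper112.Lp.Kba
import Pool.Agent.H50.G.S.Helper112.Lp.Kmg
import Pool.Agent.H50.G.S.Helper112.Lp.Kmt
open Finset

namespace Pool.Agent.Helper112.LP.Kbh

/-- truncated alternating sum -/
noncomputable def bhA (g : ℕ → ℝ) (r : ℕ) (P : Finset ℕ) : ℝ :=
  ∑ U ∈ P.powerset.filter (fun U => U.card ≤ r), (-1) ^ U.card * ∏ l ∈ U, g l

/-- elementary symmetric sum -/
noncomputable def bhE (g : ℕ → ℝ) (r : ℕ) (P : Finset ℕ) : ℝ :=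
  ∑ U ∈ P.powersetCard r, ∏ l ∈ U, g l

theorem bhA_insert (g : ℕ → ℝ) (r : ℕ) (P : Finset ℕ) (q : ℕ) (hq : q ∉ P) :
    bhA g (r + 1) (insert q P) = bhA g (r + 1) P - g q * bhA g r P := by
  unfold bhA
  rw [sum_filter, sum_powerset_insert hq, sum_filter, sum_filter, sub_eq_add_neg]
  congr 1
  rw [mul_sum, ← sum_neg_distrib]
  refine sum_congr rfl fun U hU => ?_
  have hqU : q ∉ U := fun h => hq (mem_powerset.1 hU h)
  rw [card_insert_of_notMem hqU, prod_insert hqU]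
  by_cases h : U.card ≤ r
  · rw [if_pos (by omega), if_pos h, pow_succ]; ring
  · rw [if_neg (by omega), if_neg h]; ring

theorem bhA_zero (g : ℕ → ℝ) (P : Finset ℕ) : bhA g 0 P = 1 := by
  unfold bhA
  have : P.powerset.filter (fun U => U.card ≤ 0) = {∅} := by
    ext U
    simp only [mem_filter, mem_powerset, Nat.le_zero, card_eq_zero, mem_singleton]
    constructor
    · exact fun h => h.2
    · rintro rfl; simp
  rw [this]; simp

theorem bhE_insert (g : ℕ → ℝ) (r : ℕ) (P : Finset ℕ) (q : ℕ) (hq : q ∉ P) :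
    bhE g (r + 1) (insert q P) = bhE g (r + 1) P + g q * bhE g r P := by
  unfold bhE
  rw [powersetCard_eq_filter, powersetCard_eq_filter, powersetCard_eq_filter,
    sum_filter, sum_powerset_insert hq, sum_filter, sum_filter]
  congr 1
  rw [mul_sum]
  refine sum_congr rfl fun U hU => ?_
  have hqU : q ∉ U := fun h => hq (mem_powerset.1 hU h)
  rw [card_insert_of_notMem hqU, prod_insert hqU]
  by_cases h : U.card = r
  · rw [if_pos (by omega), if_pos h]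
  · rw [if_neg (by omega), if_neg h]; ring

theorem bhE_zero (g : ℕ → ℝ) (P : Finset ℕ) : bhE g 0 P = 1 := by
  unfold bhE; simp

theorem bhE_nonneg (g : ℕ → ℝ) (r : ℕ) (P : Finset ℕ) (hg : ∀ l ∈ P, 0 ≤ g l) :
    0 ≤ bhE g r P := by
  unfold bhE
  refine sum_nonneg fun U hU => prod_nonneg fun l hl => hg l ((mem_powersetCard.1 hU).1 hl)

theorem bh_bonf (g : ℕ → ℝ) (P : Finset ℕ) :
    (∀ l ∈ P, 0 ≤ g l ∧ g l ≤ 1) → ∀ r : ℕ,
    0 ≤ (-1) ^ r * (bhA g r P - ∏ l ∈ P, (1 - g l)) ∧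
    (-1) ^ r * (bhA g r P - ∏ l ∈ P, (1 - g l)) ≤ bhE g (r + 1) P := by
  induction P using Finset.induction_on with
  | empty =>
    intro _ r
    have h1 : bhA g r ∅ = 1 := by
      unfold bhA
      have : (∅ : Finset ℕ).powerset.filter (fun U => U.card ≤ r) = {∅} := by
        rw [powerset_empty, filter_singleton, if_pos (by simp)]
      rw [this]; simp
    have h2 := bhE_nonneg g (r + 1) ∅ (by simp)
    rw [h1]; simpa using h2
  | insert q P hq ih =>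
    intro hg r
    have hgP : ∀ l ∈ P, 0 ≤ g l ∧ g l ≤ 1 := fun l hl => hg l (mem_insert_of_mem hl)
    have hgq := hg q (mem_insert_self q P)
    have hV : ∏ l ∈ insert q P, (1 - g l) = (1 - g q) * ∏ l ∈ P, (1 - g l) := prod_insert hq
    rcases r with _ | r
    · have h0 := ih hgP 0
      rw [bhA_zero] at h0
      rw [bhA_zero, bhE_insert g 0 P q hq, bhE_zero, hV]
      simp only [pow_zero, one_mul, mul_one] at h0 ⊢
      have hVn : 0 ≤ ∏ l ∈ P, (1 - g l) :=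
        prod_nonneg fun l hl => by linarith [(hgP l hl).2]
      constructor
      · nlinarith [h0.1, hgq.1]
      · nlinarith [h0.2, h0.1, hgq.1]
    · have h1 := ih hgP (r + 1)
      have h0 := ih hgP r
      rw [bhA_insert g r P q hq, bhE_insert g (r + 1) P q hq, hV]
      have key : (-1 : ℝ) ^ (r + 1) * (bhA g (r + 1) P - g q * bhA g r P
          - (1 - g q) * ∏ l ∈ P, (1 - g l)) =
          (-1) ^ (r + 1) * (bhA g (r + 1) P - ∏ l ∈ P, (1 - g l)) +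
          g q * ((-1) ^ r * (bhA g r P - ∏ l ∈ P, (1 - g l))) := by
        rw [pow_succ]; ring
      rw [key]
      constructor
      · exact add_nonneg h1.1 (mul_nonneg hgq.1 h0.1)
      · exact add_le_add h1.2 (mul_le_mul_of_nonneg_left h0.2 hgq.1)

theorem bh_bern (s g : ℝ) (hs : 0 ≤ s) (hg : 0 ≤ g) (n : ℕ) :
    s ^ (n + 1) + (n + 1) * (g * s ^ n) ≤ (s + g) ^ (n + 1) := by
  induction n with
  | zero => simp
  | succ n ih =>
    have h1 : (s + g) ^ (n + 1 + 1) = (s + g) * (s + g) ^ (n + 1) := by ring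
    have h2 : (s + g) * (s ^ (n + 1) + (n + 1) * (g * s ^ n)) ≤ (s + g) * (s + g) ^ (n + 1) :=
      mul_le_mul_of_nonneg_left ih (by linarith)
    rw [h1]
    refine le_trans ?_ h2
    push_cast
    have h3 : 0 ≤ (n + 1 : ℝ) * (g * g * s ^ n) := by positivity
    have : (s + g) * (s ^ (n + 1) + (n + 1) * (g * s ^ n)) =
      s ^ (n + 1 + 1) + ((n : ℝ) + 1 + 1) * (g * s ^ (n + 1)) + (n + 1 : ℝ) * (g * g * s ^ n) := by
      ring
    linarith

theorem bhE_le (g : ℕ → ℝ) (P : Finset ℕ) :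
    (∀ l ∈ P, 0 ≤ g l) → ∀ r : ℕ, bhE g r P ≤ (∑ l ∈ P, g l) ^ r / r.factorial := by
  induction P using Finset.induction_on with
  | empty =>
    intro _ r
    rcases r with _ | r
    · rw [bhE_zero]; simp
    · have : bhE g (r + 1) ∅ = 0 := by
        unfold bhE
        rw [powersetCard_eq_empty.2 (by simp)]; simp
      rw [this]; simp
  | insert q P hq ih =>
    intro hg r
    have hgP : ∀ l ∈ P, 0 ≤ g l := fun l hl => hg l (mem_insert_of_mem hl)
    have hgq := hg q (mem_insert_self q P)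
    rcases r with _ | r
    · rw [bhE_zero]; simp
    · rw [bhE_insert g r P q hq, sum_insert hq]
      have h1 := ih hgP (r + 1)
      have h0 := ih hgP r
      set s := ∑ l ∈ P, g l with hs
      have hs0 : 0 ≤ s := sum_nonneg hgP
      have hf : (0 : ℝ) < (r + 1).factorial := by exact_mod_cast Nat.factorial_pos _
      have hf' : (0 : ℝ) < r.factorial := by exact_mod_cast Nat.factorial_pos _
      have hb := bh_bern s (g q) hs0 hgq r
      calc bhE g (r + 1) P + g q * bhE g r P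
          ≤ s ^ (r + 1) / (r + 1).factorial + g q * (s ^ r / r.factorial) :=
            add_le_add h1 (mul_le_mul_of_nonneg_left h0 hgq)
        _ = (s ^ (r + 1) + (r + 1) * (g q * s ^ r)) / (r + 1).factorial := by
            rw [Nat.factorial_succ]; push_cast; field_simp
        _ ≤ (s + g q) ^ (r + 1) / (r + 1).factorial := by gcongr
        _ = _ := by rw [add_comm s]

theorem bh_Gj_mem {j l : ℕ} (h : l ∈ Gj j) : l.Prime ∧ 2 ^ 2 ^ (j - 1) ≤ l ∧ l < 2 ^ 2 ^ j := by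
  unfold Gj at h
  rw [mem_filter, mem_Ico] at h
  exact ⟨h.2, h.1.1, h.1.2⟩

theorem bh_Gj_disj {i j l : ℕ} (hi : l ∈ Gj (i + 1)) (hj : l ∈ Gj (j + 1)) : i = j := by
  have h1 := bh_Gj_mem hi
  have h2 := bh_Gj_mem hj
  simp only [Nat.add_sub_cancel] at h1 h2
  have a1 : 2 ^ i < 2 ^ (j + 1) := (Nat.pow_lt_pow_iff_right (by norm_num)).1
    (lt_of_le_of_lt h1.2.1 h2.2.2)
  have a2 : 2 ^ j < 2 ^ (i + 1) := (Nat.pow_lt_pow_iff_right (by norm_num)).1
    (lt_of_le_of_lt h2.2.1 h1.2.2)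
  have b1 := (Nat.pow_lt_pow_iff_right (by norm_num : 1 < 2)).1 a1
  have b2 := (Nat.pow_lt_pow_iff_right (by norm_num : 1 < 2)).1 a2
  omega

theorem bh_cover {J l : ℕ} (hl : l.Prime) (h : l < 2 ^ 2 ^ J) :
    ∃ i : Fin J, l ∈ Gj ((i : ℕ) + 1) := by
  have hex : ∃ j, l < 2 ^ 2 ^ j := ⟨J, h⟩
  classical
  have h1 := Nat.find_spec hex
  have h2 : Nat.find hex ≤ J := Nat.find_min' hex h
  have h0 : Nat.find hex ≠ 0 := by
    intro h0
    rw [h0] at h1
    have := hl.two_le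
    norm_num at h1
    omega
  obtain ⟨i, hi⟩ := Nat.exists_eq_succ_of_ne_zero h0
  refine ⟨⟨i, by omega⟩, ?_⟩
  unfold Gj
  rw [mem_filter, mem_Ico]
  have h3 : ¬ l < 2 ^ 2 ^ i := Nat.find_min hex (by omega)
  refine ⟨⟨?_, ?_⟩, hl⟩
  · simp only [Nat.add_sub_cancel]; omega
  · have : i + 1 = Nat.find hex := by omega
    simp only; rw [this]; exact h1

theorem bh_coprime (J n : ℕ) : n.Coprime (PP J) ↔
    ∀ i : Fin J, ∀ l ∈ Gj ((i : ℕ) + 1), ¬ l ∣ n := by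
  unfold PP
  rw [Nat.coprime_prod_right_iff]
  constructor
  · intro h i l hl hd
    have hm := bh_Gj_mem hl
    have hlJ : l < 2 ^ 2 ^ J := lt_of_lt_of_le hm.2.2
      (Nat.pow_le_pow_right (by norm_num) (Nat.pow_le_pow_right (by norm_num) (by omega)))
    have := h l (by rw [mem_filter, mem_range]; exact ⟨hlJ, hm.1⟩)
    have h2 := (Nat.Prime.coprime_iff_not_dvd hm.1).1 this.symm
    exact h2 hd
  · intro h l hl
    rw [mem_filter, mem_range] at hl
    obtain ⟨i, hi⟩ := bh_cover hl.2 hl.1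
    exact ((Nat.Prime.coprime_iff_not_dvd hl.2).2 (h i l hi)).symm

/-- the set of all selected primes -/
def bhU {k : ℕ} (T : Fin k → Finset ℕ) : Finset ℕ := univ.biUnion T

theorem bh_pT_eq {J : ℕ} (T : Fin J → Finset ℕ) (hT : ∀ i, T i ⊆ Gj ((i : ℕ) + 1))
    {M : Type} [CommMonoid M] (f : ℕ → M) : ∏ i, ∏ l ∈ T i, f l = ∏ l ∈ bhU T, f l := by
  unfold bhU
  rw [prod_biUnion]
  intro i _ j _ hij
  rw [Function.onFun, disjoint_left]
  intro l hl hl'
  have := bh_Gj_disj (hT i hl) (hT j hl')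
  exact hij (Fin.ext this)

theorem bh_card {J : ℕ} (T : Fin J → Finset ℕ) (hT : ∀ i, T i ⊆ Gj ((i : ℕ) + 1)) :
    (bhU T).card = ∑ i, (T i).card := by
  unfold bhU
  rw [card_biUnion]
  intro i _ j _ hij
  show Disjoint (T i) (T j)
  rw [disjoint_left]
  intro l hl hl'
  have := bh_Gj_disj (hT i hl) (hT j hl')
  exact hij (Fin.ext this)

theorem bh_mem {J : ℕ} (T : Fin J → Finset ℕ) (hT : ∀ i, T i ⊆ Gj ((i : ℕ) + 1)) {l : ℕ}
    (hl : l ∈ bhU T) : l.Prime ∧ l < 2 ^ 2 ^ J := by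
  unfold bhU at hl
  rw [mem_biUnion] at hl
  obtain ⟨i, _, hi⟩ := hl
  have hm := bh_Gj_mem (hT i hi)
  exact ⟨hm.1, lt_of_lt_of_le hm.2.2
    (Nat.pow_le_pow_right (by norm_num) (Nat.pow_le_pow_right (by norm_num) (by omega)))⟩

theorem bh_primeFactors {J : ℕ} (T : Fin J → Finset ℕ) (hT : ∀ i, T i ⊆ Gj ((i : ℕ) + 1)) :
    (∏ l ∈ bhU T, l).primeFactors = bhU T :=
  Nat.primeFactors_prod fun _ hl => (bh_mem T hT hl).1

theorem bh_squarefree {J : ℕ} (T : Fin J → Finset ℕ) (hT : ∀ i, T i ⊆ Gj ((i : ℕ) + 1)) :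
    Squarefree (∏ l ∈ bhU T, l) := by
  refine Finset.squarefree_prod_of_pairwise_isCoprime (fun a ha b hb hab => ?_) (fun l hl => ?_)
  · exact Nat.coprime_iff_isRelPrime.1
      ((Nat.coprime_primes (bh_mem T hT ha).1 (bh_mem T hT hb).1).2 hab)
  · exact (bh_mem T hT hl).1.prime.irreducible.squarefree

theorem bh_dvd {J : ℕ} (T : Fin J → Finset ℕ) (hT : ∀ i, T i ⊆ Gj ((i : ℕ) + 1)) (n : ℕ) :
    (∏ l ∈ bhU T, l) ∣ n ↔ ∀ i, ∀ l ∈ T i, l ∣ n := by
  constructor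
  · intro h i l hl
    exact dvd_trans (dvd_prod_of_mem (fun l => l)
      (by unfold bhU; exact mem_biUnion.2 ⟨i, mem_univ _, hl⟩)) h
  · intro h
    apply Finset.prod_primes_dvd
    · intro l hl; exact (bh_mem T hT hl).1.prime
    · intro l hl
      unfold bhU at hl
      obtain ⟨i, _, hi⟩ := mem_biUnion.1 hl
      exact h i l hi

theorem bh_sum_aux (b0 J : ℕ) :
    ∑ i ∈ range J, 2 ^ (i + 1) * (b0 + 2 * (J - 1 - i)) + 2 * b0 + 4 * J + 4 ≤
      2 ^ J * (2 * b0 + 4) := by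
  induction J with
  | zero => simp
  | succ J ih =>
    have h1 : ∑ i ∈ range J, 2 ^ (i + 1) * (b0 + 2 * (J + 1 - 1 - i)) =
        ∑ i ∈ range J, (2 ^ (i + 1) * (b0 + 2 * (J - 1 - i)) + 4 * 2 ^ i) := by
      refine sum_congr rfl fun i hi => ?_
      have := mem_range.1 hi
      have h2 : J + 1 - 1 - i = (J - 1 - i) + 1 := by omega
      rw [h2]; ring
    have h3 : ∑ i ∈ range J, 2 ^ i = 2 ^ J - 1 := by
      have := Nat.geomSum_eq (le_refl 2) J
      simpa using this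
    rw [sum_range_succ, h1, sum_add_distrib, ← mul_sum, h3]
    have h4 : 1 ≤ 2 ^ J := Nat.one_le_two_pow
    have h5 : J + 1 - 1 - J = 0 := by omega
    rw [h5]
    have h6 : 2 ^ (J + 1) = 2 * 2 ^ J := by ring
    rw [h6]
    generalize 2 ^ J = y at *
    obtain ⟨y, rfl⟩ : ∃ w, y = w + 1 := ⟨y - 1, by omega⟩
    simp only [Nat.add_sub_cancel]
    nlinarith

theorem bh_level {J b0 : ℕ} (T : Fin J → Finset ℕ) (hT : ∀ i, T i ⊆ Gj ((i : ℕ) + 1))
    (hc : ∀ i : Fin J, (T i).card ≤ b0 + 2 * (J - 1 - i) + 1) :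
    ∏ l ∈ bhU T, l ≤ (2 ^ 2 ^ J) ^ (2 * b0 + 6) := by
  rw [← bh_pT_eq T hT (fun l => l)]
  calc ∏ i, ∏ l ∈ T i, l ≤ ∏ i : Fin J, (2 ^ 2 ^ ((i : ℕ) + 1)) ^ (b0 + 2 * (J - 1 - i) + 1) := by
        refine prod_le_prod' fun i _ => ?_
        calc ∏ l ∈ T i, l ≤ ∏ l ∈ T i, 2 ^ 2 ^ ((i : ℕ) + 1) :=
              prod_le_prod' fun l hl => (bh_Gj_mem (hT i hl)).2.2.le
          _ = (2 ^ 2 ^ ((i : ℕ) + 1)) ^ (T i).card := by rw [prod_const]
          _ ≤ _ := Nat.pow_le_pow_right (by positivity) (hc i)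
    _ = 2 ^ (∑ i : Fin J, 2 ^ ((i : ℕ) + 1) * (b0 + 2 * (J - 1 - i) + 1)) := by
        rw [← prod_pow_eq_pow_sum]
        refine prod_congr rfl fun i _ => ?_
        rw [← pow_mul]
    _ ≤ (2 ^ 2 ^ J) ^ (2 * b0 + 6) := by
        rw [← pow_mul]
        refine Nat.pow_le_pow_right (by norm_num) ?_
        rw [Fin.sum_univ_eq_sum_range (fun i => 2 ^ (i + 1) * (b0 + 2 * (J - 1 - i) + 1))]
        have h1 := bh_sum_aux b0 J
        have h2 : ∑ i ∈ range J, 2 ^ (i + 1) * (b0 + 2 * (J - 1 - i) + 1) =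
            ∑ i ∈ range J, 2 ^ (i + 1) * (b0 + 2 * (J - 1 - i)) + 2 * ∑ i ∈ range J, 2 ^ i := by
          rw [mul_sum, ← sum_add_distrib]
          refine sum_congr rfl fun i _ => ?_
          ring
        have h3 : ∑ i ∈ range J, 2 ^ i = 2 ^ J - 1 := by
          have := Nat.geomSum_eq (le_refl 2) J
          simpa using this
        have h4 : 1 ≤ 2 ^ J := Nat.one_le_two_pow
        rw [h2, h3]
        generalize 2 ^ J = y at *
        obtain ⟨y, rfl⟩ : ∃ w, y = w + 1 := ⟨y - 1, by omega⟩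
        simp only [Nat.add_sub_cancel]
        nlinarith

theorem bh_inv_ge {x : ℝ} (h0 : 0 ≤ x) (h1 : x ≤ 1 / 2) : Real.exp (-(2 * x)) ≤ 1 - x := by
  have h2 := Real.add_one_le_exp (2 * x)
  rw [Real.exp_neg]
  have h3 : 0 < 1 - x := by linarith
  rw [inv_le_comm₀ (Real.exp_pos _) h3]
  refine le_trans ?_ h2
  rw [inv_le_iff_one_le_mul₀ h3]
  nlinarith

/-- the density function -/
noncomputable def bhg (l : ℕ) : ℝ := 2 / (l : ℝ) - 1 / (l : ℝ) ^ 2

theorem bhg_eq {l : ℕ} (hl : l.Prime) : 1 - bhg l = (1 - 1 / (l : ℝ)) ^ 2 := by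
  unfold bhg
  have : (l : ℝ) ≠ 0 := by exact_mod_cast hl.ne_zero
  field_simp; ring

theorem bh_inv_bd {l : ℕ} (hl : l.Prime) : 0 ≤ 1 / (l : ℝ) ∧ 1 / (l : ℝ) ≤ 1 / 2 := by
  have h2 : (2 : ℝ) ≤ l := by exact_mod_cast hl.two_le
  refine ⟨by positivity, ?_⟩
  apply one_div_le_one_div_of_le (by norm_num) h2

theorem bhg_bd {l : ℕ} (hl : l.Prime) : 0 ≤ bhg l ∧ bhg l ≤ 1 := by
  have h := bhg_eq hl
  have h2 := bh_inv_bd hl
  constructor
  · nlinarith
  · nlinarith [sq_nonneg (1 - 1 / (l : ℝ))]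

theorem bhg_le {l : ℕ} : bhg l ≤ 2 * (1 / (l : ℝ)) := by
  unfold bhg
  have : (0 : ℝ) ≤ 1 / (l : ℝ) ^ 2 := by positivity
  have h2 : 2 / (l : ℝ) = 2 * (1 / (l : ℝ)) := by ring
  linarith

theorem bh_V_ge {P : Finset ℕ} (hP : ∀ l ∈ P, l.Prime) {L : ℝ} (hL : ∑ l ∈ P, (1 : ℝ) / l ≤ L) :
    Real.exp (-(4 * L)) ≤ ∏ l ∈ P, (1 - bhg l) := by
  have h1 : Real.exp (-(4 * ∑ l ∈ P, (1 : ℝ) / l)) ≤ ∏ l ∈ P, (1 - bhg l) := by
    have : -(4 * ∑ l ∈ P, (1 : ℝ) / l) = ∑ l ∈ P, (-(2 * (1 / (l : ℝ))) + -(2 * (1 / (l : ℝ)))) := by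
      rw [mul_sum, ← sum_neg_distrib]
      refine sum_congr rfl fun l _ => ?_
      ring
    rw [this, Real.exp_sum]
    refine prod_le_prod (fun l _ => (Real.exp_pos _).le) fun l hl => ?_
    rw [bhg_eq (hP l hl), Real.exp_add, sq]
    have h2 := bh_inv_bd (hP l hl)
    have h3 := bh_inv_ge h2.1 h2.2
    exact mul_le_mul h3 h3 (Real.exp_pos _).le (by linarith)
  refine le_trans ?_ h1
  exact Real.exp_le_exp.2 (by linarith)

theorem bh_V_prod (J : ℕ) : ∏ i : Fin J, ∏ l ∈ Gj ((i : ℕ) + 1), (1 - bhg l) =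
    (∏ l ∈ (range (2 ^ 2 ^ J)).filter Nat.Prime, (1 - (1 : ℝ) / l)) ^ 2 := by
  rw [bh_pT_eq (fun i : Fin J => Gj ((i : ℕ) + 1)) (fun i => Subset.refl _) (fun l => 1 - bhg l)]
  have : bhU (fun i : Fin J => Gj ((i : ℕ) + 1)) = (range (2 ^ 2 ^ J)).filter Nat.Prime := by
    ext l
    constructor
    · intro h
      have := bh_mem (fun i : Fin J => Gj ((i : ℕ) + 1)) (fun i => Subset.refl _) h
      rw [mem_filter, mem_range]; exact ⟨this.2, this.1⟩
    · intro h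
      rw [mem_filter, mem_range] at h
      obtain ⟨i, hi⟩ := bh_cover h.2 h.1
      unfold bhU
      exact mem_biUnion.2 ⟨i, mem_univ _, hi⟩
  rw [this, ← prod_pow]
  refine prod_congr rfl fun l hl => bhg_eq (mem_filter.1 hl).2

/-- the error term -/
theorem bh_err (J b0 : ℕ) : ((J : ℝ) + 1) * ∏ i : Fin J,
    ∑ U ∈ (Gj ((i : ℕ) + 1)).powerset.filter (fun U => U.card ≤ b0 + 2 * (J - 1 - i) + 1),
      (3 : ℝ) ^ U.card ≤ ((2 : ℝ) ^ 2 ^ J) ^ (5 * (2 * b0 + 6)) := by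
  classical
  set z : ℕ := 2 ^ 2 ^ J with hz
  set K := 2 * b0 + 6 with hK
  have hz1 : 1 ≤ z := Nat.one_le_two_pow
  have hJz : J + 1 ≤ z := by
    have h1 : J < 2 ^ J := Nat.lt_two_pow_self
    have h2 : 2 ^ J < 2 ^ 2 ^ J := Nat.lt_two_pow_self
    omega
  set F : Finset (Fin J → Finset ℕ) := Fintype.piFinset (fun i : Fin J =>
    (Gj ((i : ℕ) + 1)).powerset.filter (fun U => U.card ≤ b0 + 2 * (J - 1 - i) + 1)) with hF
  have hmem : ∀ T ∈ F, (∀ i, T i ⊆ Gj ((i : ℕ) + 1)) ∧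
      ∀ i : Fin J, (T i).card ≤ b0 + 2 * (J - 1 - i) + 1 := by
    intro T hT
    rw [hF, Fintype.mem_piFinset] at hT
    exact ⟨fun i => mem_powerset.1 (mem_filter.1 (hT i)).1, fun i => (mem_filter.1 (hT i)).2⟩
  have hprod : ∏ i : Fin J,
    ∑ U ∈ (Gj ((i : ℕ) + 1)).powerset.filter (fun U => U.card ≤ b0 + 2 * (J - 1 - i) + 1),
      (3 : ℝ) ^ U.card = ∑ T ∈ F, ∏ i, (3 : ℝ) ^ (T i).card := by
    rw [prod_univ_sum]
  have hterm : ∀ T ∈ F, ∏ i, (3 : ℝ) ^ (T i).card ≤ (z : ℝ) ^ (2 * K) := by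
    intro T hT
    obtain ⟨h1, h2⟩ := hmem T hT
    have hl := bh_level T h1 h2
    rw [prod_pow_eq_pow_sum, ← bh_card T h1]
    have h3 : 3 ^ (bhU T).card ≤ (∏ l ∈ bhU T, l) ^ 2 := by
      rw [← prod_pow, ← prod_const]
      refine prod_le_prod' fun l hl' => ?_
      have := (bh_mem T h1 hl').1.two_le
      nlinarith
    have h4 : 3 ^ (bhU T).card ≤ z ^ (2 * K) := by
      refine h3.trans ?_
      calc (∏ l ∈ bhU T, l) ^ 2 ≤ (z ^ K) ^ 2 := Nat.pow_le_pow_left hl 2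
        _ = z ^ (2 * K) := by rw [← pow_mul, mul_comm]
    exact_mod_cast h4
  have hcard : F.card ≤ z ^ K := by
    have : F.card ≤ (Icc 1 (z ^ K)).card := by
      refine card_le_card_of_injOn (fun T => ∏ l ∈ bhU T, l) ?_ ?_
      · intro T hT
        obtain ⟨h1, h2⟩ := hmem T hT
        have hl := bh_level T h1 h2
        simp only [coe_Icc, Set.mem_Icc]
        refine ⟨?_, hl⟩
        exact prod_pos fun l hl' => (bh_mem T h1 hl').1.pos
      · intro T hT T' hT' h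
        obtain ⟨h1, h2⟩ := hmem T hT
        obtain ⟨h1', h2'⟩ := hmem T' hT'
        have hU : bhU T = bhU T' := by
          rw [← bh_primeFactors T h1, ← bh_primeFactors T' h1']
          exact congrArg Nat.primeFactors h
        funext i
        ext l
        have aux : ∀ T T' : Fin J → Finset ℕ, (∀ i, T i ⊆ Gj ((i : ℕ) + 1)) →
            (∀ i, T' i ⊆ Gj ((i : ℕ) + 1)) → bhU T = bhU T' → l ∈ T i → l ∈ T' i := by
          intro T T' h1 h1' hU hl
          have hlU : l ∈ bhU T' := by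
            rw [← hU]; unfold bhU; exact mem_biUnion.2 ⟨i, mem_univ _, hl⟩
          unfold bhU at hlU
          obtain ⟨j, _, hj⟩ := mem_biUnion.1 hlU
          have := bh_Gj_disj (h1 i hl) (h1' j hj)
          have hij : i = j := Fin.ext this
          rw [hij]; exact hj
        exact ⟨aux T T' h1 h1' hU, aux T' T h1' h1 hU.symm⟩
    simpa using this
  have hsum : ∑ T ∈ F, ∏ i, (3 : ℝ) ^ (T i).card ≤ (z : ℝ) ^ K * (z : ℝ) ^ (2 * K) := by
    calc ∑ T ∈ F, ∏ i, (3 : ℝ) ^ (T i).card ≤ ∑ T ∈ F, (z : ℝ) ^ (2 * K) := sum_le_sum hterm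
      _ = F.card * (z : ℝ) ^ (2 * K) := by rw [sum_const, nsmul_eq_mul]
      _ ≤ _ := by
        refine mul_le_mul_of_nonneg_right ?_ (by positivity)
        exact_mod_cast hcard
  have hz1' : (1 : ℝ) ≤ z := by exact_mod_cast hz1
  have hzz : (2 : ℝ) ^ 2 ^ J = (z : ℝ) := by rw [hz]; push_cast; rfl
  rw [hprod, hzz]
  calc ((J : ℝ) + 1) * ∑ T ∈ F, ∏ i, (3 : ℝ) ^ (T i).card
      ≤ (z : ℝ) * ((z : ℝ) ^ K * (z : ℝ) ^ (2 * K)) := by
        refine mul_le_mul ?_ hsum ?_ (by positivity)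
        · exact_mod_cast hJz
        · exact sum_nonneg fun T _ => prod_nonneg fun i _ => by positivity
    _ = (z : ℝ) ^ (1 + 3 * K) := by
        rw [← pow_add, ← pow_succ']; congr 1; omega
    _ ≤ (z : ℝ) ^ (5 * K) := pow_le_pow_right₀ hz1' (by omega)

theorem bh_tail (x ε : ℝ) (hx : 0 ≤ x) (hε : 0 < ε) : ∃ b0 : ℕ, Even b0 ∧ ∀ J : ℕ,
    ∑ i : Fin J, x ^ (b0 + 2 * (J - 1 - (i : ℕ)) + 1) / (b0 + 2 * (J - 1 - (i : ℕ)) + 1).factorial
      ≤ ε := by
  have hs := Real.summable_pow_div_factorial x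
  have ht := tendsto_sum_nat_add (fun n => x ^ n / (n.factorial : ℝ))
  obtain ⟨N, hN⟩ := (ht.eventually (gt_mem_nhds hε)).exists_forall_of_atTop
  refine ⟨2 * N, even_two_mul N, fun J => ?_⟩
  have h1 := (hN (2 * N + 1) (by omega)).le
  refine le_trans ?_ h1
  have hs' : Summable (fun k => x ^ (k + (2 * N + 1)) / ((k + (2 * N + 1)).factorial : ℝ)) :=
    (summable_nat_add_iff (2 * N + 1)).2 hs
  have hinj : Function.Injective (fun i : Fin J => 2 * (J - 1 - (i : ℕ))) := by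
    intro i j h
    simp only at h
    have := i.2; have := j.2
    exact Fin.ext (by omega)
  have h2 : ∑ i : Fin J, x ^ (2 * N + 2 * (J - 1 - (i : ℕ)) + 1) /
      ((2 * N + 2 * (J - 1 - (i : ℕ)) + 1).factorial : ℝ) =
      ∑ k ∈ univ.image (fun i : Fin J => 2 * (J - 1 - (i : ℕ))),
        x ^ (k + (2 * N + 1)) / ((k + (2 * N + 1)).factorial : ℝ) := by
    rw [sum_image (fun a _ b _ h => hinj h)]
    refine sum_congr rfl fun i _ => ?_
    have : 2 * N + 2 * (J - 1 - (i : ℕ)) + 1 = 2 * (J - 1 - (i : ℕ)) + (2 * N + 1) := by ring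
    rw [this]
  rw [h2]
  exact hs'.sum_le_tsum _ (fun k _ => by positivity)

/-- BH: Brun-Hooley sieve of dimension two -/
theorem brun_hooley : ∃ (K : ℕ) (c C : ℝ), 0 < c ∧ 0 < C ∧ ∀ (J : ℕ) (Ω : Type) (S : Finset Ω)
    (n : Ω → ℕ) (X E : ℝ), 0 ≤ X → 0 ≤ E →
    (∀ d : ℕ, Squarefree d → d ≤ (2 ^ 2 ^ J) ^ K → (∀ l ∈ d.primeFactors, l < 2 ^ 2 ^ J) →
      |((S.filter (fun ω => d ∣ n ω)).card : ℝ) -
        X * ∏ l ∈ d.primeFactors, (2 / (l : ℝ) - 1 / (l : ℝ) ^ 2)| ≤ 3 ^ d.primeFactors.card * E) →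
    c * X / 4 ^ J - ((2 : ℝ) ^ 2 ^ J) ^ (5 * K) * E ≤
      ((S.filter (fun ω => (n ω).Coprime (PP J))).card : ℝ) ∧
    ((S.filter (fun ω => (n ω).Coprime (PP J))).card : ℝ) ≤
      C * X / 4 ^ J + ((2 : ℝ) ^ 2 ^ J) ^ (5 * K) * E := by
  classical
  obtain ⟨CM, hCM, hM⟩ := mertens_group
  obtain ⟨c1, C1, hc1, hC1, hP⟩ := mertens_prod
  set L : ℝ := Real.log 2 + CM with hLdef
  have hlog2 : 0 < Real.log 2 := Real.log_pos (by norm_num)
  have hL0 : 0 < L := by rw [hLdef]; linarith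
  have hLs : ∀ i : ℕ, ∑ l ∈ Gj (i + 1), (1 : ℝ) / l ≤ L := by
    intro i
    have h1 := (abs_le.1 (hM (i + 1) (by omega))).2
    have h2 : CM / 2 ^ (i + 1) ≤ CM := div_le_self hCM.le (one_le_pow₀ (by norm_num))
    rw [hLdef]; linarith
  set v : ℝ := Real.exp (-(4 * L)) with hv
  have hv0 : 0 < v := Real.exp_pos _
  obtain ⟨b0, hb0, htail⟩ := bh_tail (2 * L) (v / 2) (by linarith) (by linarith)
  refine ⟨2 * b0 + 6, c1 ^ 2 / 2, C1 ^ 2 * Real.exp (1 / 2), by positivity, by positivity, ?_⟩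
  intro J Ω S n X E hX hE hyp
  set b : Fin J → ℕ := fun i => b0 + 2 * (J - 1 - (i : ℕ)) with hbdef
  set P : Fin J → Finset ℕ := fun i => Gj ((i : ℕ) + 1) with hPdef
  have hPp : ∀ i, ∀ l ∈ P i, l.Prime := fun i l hl => (bh_Gj_mem hl).1
  have hb : ∀ i, Even (b i) := fun i => hb0.add (even_two_mul _)
  have H : ∀ T : Fin J → Finset ℕ, (∀ i, T i ⊆ P i) →
      (∃ k : ℕ, ∀ i, (T i).card ≤ b i + if (i : ℕ) = k then 1 else 0) →
      |((S.filter (fun ω => ∀ i, ∀ l ∈ T i, l ∣ n ω)).card : ℝ) - X * ∏ i, ∏ l ∈ T i, bhg l|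
        ≤ 3 ^ (∑ i, (T i).card) * E := by
    intro T hT hk
    obtain ⟨k, hk⟩ := hk
    have hc : ∀ i : Fin J, (T i).card ≤ b0 + 2 * (J - 1 - (i : ℕ)) + 1 := by
      intro i
      refine (hk i).trans ?_
      simp only [hbdef]
      split_ifs <;> omega
    have h1 := hyp (∏ l ∈ bhU T, l) (bh_squarefree T hT) (bh_level T hT hc) (by
      rw [bh_primeFactors T hT]
      exact fun l hl => (bh_mem T hT hl).2)
    rw [bh_primeFactors T hT] at h1
    rw [bh_pT_eq T hT bhg, ← bh_card T hT]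
    have h2 : (S.filter (fun ω => ∀ i, ∀ l ∈ T i, l ∣ n ω)) =
        S.filter (fun ω => (∏ l ∈ bhU T, l) ∣ n ω) := by
      refine filter_congr fun ω _ => ?_
      exact (bh_dvd T hT (n ω)).symm
    rw [h2]
    exact h1
  have hmain := brun_hooley_abs J P b hb bhg Ω S n X E hX hE H
  have hSf : (S.filter (fun ω => ∀ i, ∀ l ∈ P i, ¬ l ∣ n ω)) =
      S.filter (fun ω => (n ω).Coprime (PP J)) := by
    refine filter_congr fun ω _ => ?_
    exact (bh_coprime J (n ω)).symm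
  rw [hSf] at hmain
  set V : Fin J → ℝ := fun i => ∏ l ∈ P i, (1 - bhg l) with hVdef
  set Tr : Fin J → ℝ := fun i => bhA bhg (b i) (P i) with hTr
  set Er : Fin J → ℝ := fun i => bhE bhg (b i + 1) (P i) with hEr
  have hTrdef : ∀ i, ∑ U ∈ (P i).powerset.filter (fun U => U.card ≤ b i),
      (-1) ^ U.card * ∏ l ∈ U, bhg l = Tr i := fun i => rfl
  have hErdef : ∀ i, ∑ U ∈ (P i).powersetCard (b i + 1), ∏ l ∈ U, bhg l = Er i := fun i => rfl
  simp only [hTrdef, hErdef] at hmain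
  have hgb : ∀ i, ∀ l ∈ P i, 0 ≤ bhg l ∧ bhg l ≤ 1 := fun i l hl => bhg_bd (hPp i l hl)
  have hbonf : ∀ i, V i ≤ Tr i ∧ Tr i ≤ V i + Er i := by
    intro i
    have h := bh_bonf bhg (P i) (hgb i) (b i)
    rw [(hb i).neg_one_pow, one_mul] at h
    constructor
    · have := h.1; simp only [hVdef, hTr]; linarith
    · have := h.2; simp only [hVdef, hTr, hEr]; linarith
  have hVv : ∀ i, v ≤ V i := fun i => bh_V_ge (hPp i) (hLs i)
  have hEr0 : ∀ i, 0 ≤ Er i := fun i => bhE_nonneg _ _ _ fun l hl => (hgb i l hl).1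
  have hErle : ∀ i, Er i ≤ (2 * L) ^ (b i + 1) / (b i + 1).factorial := by
    intro i
    refine (bhE_le bhg (P i) (fun l hl => (hgb i l hl).1) (b i + 1)).trans ?_
    have h1 : ∑ l ∈ P i, bhg l ≤ 2 * L := by
      calc ∑ l ∈ P i, bhg l ≤ ∑ l ∈ P i, 2 * (1 / (l : ℝ)) := sum_le_sum fun l _ => bhg_le
        _ = 2 * ∑ l ∈ P i, 1 / (l : ℝ) := by rw [mul_sum]
        _ ≤ 2 * L := by linarith [hLs i]
    have h0 : 0 ≤ ∑ l ∈ P i, bhg l := sum_nonneg fun l hl => (hgb i l hl).1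
    gcongr
  have hErsum : ∑ i, Er i ≤ v / 2 := by
    refine le_trans (sum_le_sum fun i _ => hErle i) (htail J)
  have hVprod := bh_V_prod J
  have hVprod' : ∏ i, V i = (∏ l ∈ (range (2 ^ 2 ^ J)).filter Nat.Prime, (1 - (1 : ℝ) / l)) ^ 2 :=
    hVprod
  obtain ⟨hlo, hup⟩ := hP J
  have hV0 : ∀ i, 0 < V i := fun i => lt_of_lt_of_le hv0 (hVv i)
  have hTr0 : ∀ i, 0 < Tr i := fun i => lt_of_lt_of_le (hV0 i) (hbonf i).1
  have h4 : (4 : ℝ) ^ J = (2 ^ J) ^ 2 := by rw [← pow_mul, mul_comm, pow_mul]; norm_num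
  have h2J : (0 : ℝ) < 2 ^ J := by positivity
  have hVlo : c1 ^ 2 / 4 ^ J ≤ ∏ i, V i := by
    rw [hVprod', h4, ← div_pow]
    exact pow_le_pow_left₀ (by positivity) hlo 2
  have hVup : ∏ i, V i ≤ C1 ^ 2 / 4 ^ J := by
    rw [hVprod', h4, ← div_pow]
    exact pow_le_pow_left₀ (le_trans (by positivity) hlo) hup 2
  have herr := bh_err J b0
  have herr' : ∏ i, ∑ U ∈ (P i).powerset.filter (fun U => U.card ≤ b i + 1), (3 : ℝ) ^ U.card ≤
      ((2 : ℝ) ^ 2 ^ J) ^ (5 * (2 * b0 + 6)) := by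
    refine le_trans ?_ herr
    have h0 : 0 ≤ ∏ i, ∑ U ∈ (P i).powerset.filter (fun U => U.card ≤ b i + 1),
        (3 : ℝ) ^ U.card := prod_nonneg fun i _ => sum_nonneg fun U _ => by positivity
    have h1 : (1 : ℝ) ≤ (J : ℝ) + 1 := by
      have : (0 : ℝ) ≤ J := Nat.cast_nonneg J
      linarith
    exact le_mul_of_one_le_left h0 h1
  constructor
  · refine le_trans ?_ hmain.2
    have hA : (J + 1) * E * ∏ i, ∑ U ∈ (P i).powerset.filter (fun U => U.card ≤ b i + 1),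
        (3 : ℝ) ^ U.card ≤ ((2 : ℝ) ^ 2 ^ J) ^ (5 * (2 * b0 + 6)) * E := by
      calc (J + 1) * E * ∏ i, ∑ U ∈ (P i).powerset.filter (fun U => U.card ≤ b i + 1),
        (3 : ℝ) ^ U.card = (((J : ℝ) + 1) * ∏ i, ∑ U ∈ (P i).powerset.filter
          (fun U => U.card ≤ b i + 1), (3 : ℝ) ^ U.card) * E := by ring
        _ ≤ _ := mul_le_mul_of_nonneg_right herr hE
    have hB : c1 ^ 2 / 2 / 4 ^ J ≤ (∏ i, Tr i) - ∑ k, Er k * ∏ i ∈ univ.erase k, Tr i := by
      have hTp : ∏ i, V i ≤ ∏ i, Tr i := prod_le_prod (fun i _ => (hV0 i).le)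
        fun i _ => (hbonf i).1
      have hk : ∀ k, Er k * ∏ i ∈ univ.erase k, Tr i ≤ Er k / v * ∏ i, Tr i := by
        intro k
        have h1 : ∏ i, Tr i = Tr k * ∏ i ∈ univ.erase k, Tr i :=
          (mul_prod_erase univ Tr (mem_univ k)).symm
        have h2 : 0 ≤ ∏ i ∈ univ.erase k, Tr i := prod_nonneg fun i _ => (hTr0 i).le
        rw [h1, div_mul_eq_mul_div, le_div_iff₀ hv0]
        have h3 : v ≤ Tr k := (hVv k).trans (hbonf k).1
        have h4 : Er k * (∏ i ∈ univ.erase k, Tr i) * v ≤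
            Er k * (∏ i ∈ univ.erase k, Tr i) * Tr k :=
          mul_le_mul_of_nonneg_left h3 (mul_nonneg (hEr0 k) h2)
        linarith
      have hsum : ∑ k, Er k * ∏ i ∈ univ.erase k, Tr i ≤ (1 / 2) * ∏ i, Tr i := by
        calc ∑ k, Er k * ∏ i ∈ univ.erase k, Tr i ≤ ∑ k, Er k / v * ∏ i, Tr i :=
              sum_le_sum fun k _ => hk k
          _ = (∑ k, Er k) / v * ∏ i, Tr i := by rw [← sum_mul, sum_div]
          _ ≤ (1 / 2) * ∏ i, Tr i := by
              refine mul_le_mul_of_nonneg_right ?_ (prod_nonneg fun i _ => (hTr0 i).le)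
              rw [div_le_iff₀ hv0]; linarith
      have : c1 ^ 2 / 2 / 4 ^ J = (1 / 2) * (c1 ^ 2 / 4 ^ J) := by ring
      rw [this]
      linarith
    have hC : c1 ^ 2 / 2 * X / 4 ^ J ≤
        X * ((∏ i, Tr i) - ∑ k, Er k * ∏ i ∈ univ.erase k, Tr i) := by
      have := mul_le_mul_of_nonneg_left hB hX
      calc c1 ^ 2 / 2 * X / 4 ^ J = X * (c1 ^ 2 / 2 / 4 ^ J) := by ring
        _ ≤ _ := this
    linarith
  · refine hmain.1.trans ?_
    have hA : ∏ i, Tr i ≤ C1 ^ 2 * Real.exp (1 / 2) / 4 ^ J := by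
      have h1 : ∏ i, Tr i ≤ ∏ i, V i * Real.exp (Er i / v) := by
        refine prod_le_prod (fun i _ => (hTr0 i).le) fun i _ => ?_
        refine (hbonf i).2.trans ?_
        have h2 := Real.add_one_le_exp (Er i / v)
        have h3 : V i * (Er i / v + 1) ≤ V i * Real.exp (Er i / v) :=
          mul_le_mul_of_nonneg_left h2 (hV0 i).le
        refine le_trans ?_ h3
        have h4 : Er i ≤ V i * (Er i / v) := by
          rw [← mul_div_assoc, le_div_iff₀ hv0, mul_comm (V i)]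
          exact mul_le_mul_of_nonneg_left (hVv i) (hEr0 i)
        linarith
      rw [prod_mul_distrib, ← Real.exp_sum, ← sum_div] at h1
      have h5 : (∑ i, Er i) / v ≤ 1 / 2 := by
        rw [div_le_iff₀ hv0]; linarith
      have h6 : Real.exp ((∑ i, Er i) / v) ≤ Real.exp (1 / 2) := Real.exp_le_exp.2 h5
      calc ∏ i, Tr i ≤ (∏ i, V i) * Real.exp ((∑ i, Er i) / v) := h1
        _ ≤ (C1 ^ 2 / 4 ^ J) * Real.exp (1 / 2) :=
          mul_le_mul hVup h6 (Real.exp_pos _).le (by positivity)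
        _ = _ := by ring
    have hB : X * ∏ i, Tr i ≤ C1 ^ 2 * Real.exp (1 / 2) * X / 4 ^ J := by
      calc X * ∏ i, Tr i ≤ X * (C1 ^ 2 * Real.exp (1 / 2) / 4 ^ J) :=
            mul_le_mul_of_nonneg_left hA hX
        _ = _ := by ring
    have hC : E * ∏ i, ∑ U ∈ (P i).powerset.filter (fun U => U.card ≤ b i + 1), (3 : ℝ) ^ U.card ≤
        ((2 : ℝ) ^ 2 ^ J) ^ (5 * (2 * b0 + 6)) * E := by
      rw [mul_comm]
      exact mul_le_mul_of_nonneg_right herr' hE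
    linarith

end Pool.Agent.Helper112.LP.Kbh

namespace Pool.Agent.Helper112.LP

/-- BH: Brun-Hooley sieve of dimension two -/
theorem brun_hooley : ∃ (K : ℕ) (c C : ℝ), 0 < c ∧ 0 < C ∧ ∀ (J : ℕ) (Ω : Type) (S : Finset Ω)
    (n : Ω → ℕ) (X E : ℝ), 0 ≤ X → 0 ≤ E →
    (∀ d : ℕ, Squarefree d → d ≤ (2 ^ 2 ^ J) ^ K → (∀ l ∈ d.primeFactors, l < 2 ^ 2 ^ J) →
      |((S.filter (fun ω => d ∣ n ω)).card : ℝ) -
        X * ∏ l ∈ d.primeFactors, (2 / (l : ℝ) - 1 / (l : ℝ) ^ 2)| ≤ 3 ^ d.primeFactors.card * E) →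
    c * X / 4 ^ J - ((2 : ℝ) ^ 2 ^ J) ^ (5 * K) * E ≤
      ((S.filter (fun ω => (n ω).Coprime (PP J))).card : ℝ) ∧
    ((S.filter (fun ω => (n ω).Coprime (PP J))).card : ℝ) ≤
      C * X / 4 ^ J + ((2 : ℝ) ^ 2 ^ J) ^ (5 * K) * E := by
  first
    | exact Kbh.brun_hooley
    | (apply Kbh.brun_hooley <;> assumption)

end Pool.Agent.Helper112.LP
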